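import Mathlib

/-!
# The preorderings `Pos(K₁)`, `Pos(K₂)`, `Pos(K₃)` of `ℚ[x]` are finitely generated

For `K₁ = [0, 2^(1/3)]`, `K₂ = [√2, √3]`, `K₃ = [-2^(1/4), 2^(1/4)]` the natural generators suffice.
A strictly positive polynomial on `[a, b]` is strictly positive on a slightly larger interval
`[r, r']` with rational endpoints, so by Bernstein's theorem it is a combination with nonnegative
rational coefficients of products of `x - r` and `r' - x`; explicit tangent identities show that these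
linear polynomials lie in the preordering. Zeros are removed by dividing by minimal polynomials.
-/

set_option autoImplicit false

namespace Pool.Agent.Results.MP_57f692_ag.AllFinGen

open Polynomial

/-- Finite sums of `a * h ^ 2` with `a` a nonnegative rational number and `h` in `ℚ[x]`. -/
def IsSOS (p : ℚ[X]) : Prop :=
  p ∈ AddSubmonoid.closure {q : ℚ[X] | ∃ a : ℚ, 0 ≤ a ∧ ∃ h : ℚ[X], q = C a * h ^ 2}

/-- The preordering of `ℚ[x]` generated by `g 0, ..., g (s - 1)`. -/
def preordering {s : ℕ} (g : Fin s → ℚ[X]) : Set ℚ[X] :=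
  {f | ∃ σ : Finset (Fin s) → ℚ[X], (∀ e, IsSOS (σ e)) ∧ f = ∑ e, σ e * ∏ i ∈ e, g i}

/-- The polynomials in `ℚ[x]` that are nonnegative on `K`. -/
def Pos (K : Set ℝ) : Set ℚ[X] := {f | ∀ t ∈ K, 0 ≤ aeval t f}

/-! ### Bernstein's theorem -/

theorem pow_eq_bernstein {R : Type*} [CommRing R] (x : R) (N k : ℕ) (hk : k ≤ N) :
    x ^ k = ∑ i ∈ Finset.range (N + 1),
      ((if k ≤ i then (N - k).choose (i - k) else 0 : ℕ) : R) * (x ^ i * (1 - x) ^ (N - i)) := by
  have h1 : (x + (1 - x)) ^ (N - k) = 1 := by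
    rw [add_sub_cancel, one_pow]
  have h2 : x ^ k = x ^ k * (x + (1 - x)) ^ (N - k) := by rw [h1, mul_one]
  rw [h2, add_pow, Finset.mul_sum]
  have h3 : Finset.range (N + 1) = Finset.Ico 0 (N + 1) := by rw [Finset.range_eq_Ico]
  rw [h3, ← Finset.sum_Ico_consecutive _ (Nat.zero_le k) (by omega : k ≤ N + 1)]
  have h4 : ∑ i ∈ Finset.Ico 0 k, ((if k ≤ i then (N - k).choose (i - k) else 0 : ℕ) : R) *
      (x ^ i * (1 - x) ^ (N - i)) = 0 := by
    apply Finset.sum_eq_zero
    intro i hi
    rw [Finset.mem_Ico] at hi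
    rw [if_neg (by omega)]
    simp
  rw [h4, zero_add, Finset.sum_Ico_eq_sum_range]
  have h5 : N + 1 - k = N - k + 1 := by omega
  rw [h5]
  refine Finset.sum_congr rfl fun m hm => ?_
  rw [Finset.mem_range] at hm
  rw [if_pos (by omega), Nat.add_sub_cancel_left]
  have h6 : N - (k + m) = N - k - m := by omega
  rw [h6, pow_add]
  ring

theorem choose_ratio_error (N : ℕ) (i : ℕ) (hi : i ≤ N) (k : ℕ) (hk : k < N) :
    |((i.choose k : ℝ) / (N.choose k : ℝ)) - ((i : ℝ) / N) ^ k| ≤ (k : ℝ) ^ 2 / (N - k) := by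
  have hN : (0 : ℝ) < N := by exact_mod_cast (by omega : 0 < N)
  induction k with
  | zero => simp
  | succ k ih =>
    have ih' := ih (by omega)
    have hkN : (0 : ℝ) < (N : ℝ) - k := by
      have : (k : ℝ) < N := by exact_mod_cast (by omega : k < N)
      linarith
    have hkN1 : (0 : ℝ) < (N : ℝ) - (k + 1 : ℕ) := by
      have : ((k + 1 : ℕ) : ℝ) < N := by exact_mod_cast hk
      linarith
    have hNk : (0 : ℝ) < (N.choose k : ℝ) := by exact_mod_cast Nat.choose_pos (by omega)
    have hNk1 : (0 : ℝ) < (N.choose (k + 1) : ℝ) := by exact_mod_cast Nat.choose_pos (by omega)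
    have e1 : (i.choose (k + 1) : ℝ) * (k + 1) = i.choose k * ((i : ℝ) - k) := by
      rcases le_or_gt k i with h | h
      · have := Nat.choose_succ_right_eq i k
        have h2 : ((i.choose (k + 1) * (k + 1) : ℕ) : ℝ) = ((i.choose k * (i - k) : ℕ) : ℝ) := by
          rw [this]
        push_cast [Nat.cast_sub h] at h2
        exact h2
      · rw [Nat.choose_eq_zero_of_lt h, Nat.choose_eq_zero_of_lt (by omega : i < k + 1)]
        simp
    have e2 : (N.choose (k + 1) : ℝ) * (k + 1) = N.choose k * ((N : ℝ) - k) := by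
      have := Nat.choose_succ_right_eq N k
      have h2 : ((N.choose (k + 1) * (k + 1) : ℕ) : ℝ) = ((N.choose k * (N - k) : ℕ) : ℝ) := by
        rw [this]
      push_cast [Nat.cast_sub (by omega : k ≤ N)] at h2
      exact h2
    have e3 : (i.choose (k + 1) : ℝ) / (N.choose (k + 1) : ℝ) =
        (i.choose k : ℝ) / (N.choose k : ℝ) * (((i : ℝ) - k) / ((N : ℝ) - k)) := by
      have hk1 : ((k : ℝ) + 1) ≠ 0 := by positivity
      rw [div_mul_div_comm, ← e1, ← e2, mul_div_mul_right _ _ hk1]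
    set P := (i.choose k : ℝ) / (N.choose k : ℝ) with hP
    have hP0 : 0 ≤ P := by positivity
    have hP1 : P ≤ 1 := by
      rw [hP, div_le_one hNk]
      exact_mod_cast Nat.choose_le_choose k hi
    have hiN : (i : ℝ) ≤ N := by exact_mod_cast hi
    have hiN0 : 0 ≤ (i : ℝ) / N := by positivity
    have hiN1 : (i : ℝ) / N ≤ 1 := by rw [div_le_one hN]; exact hiN
    have e4 : ((i : ℝ) - k) / ((N : ℝ) - k) - (i : ℝ) / N = -(k * (N - i) / (N * (N - k))) := by
      field_simp
      ring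
    have e5 : |((i : ℝ) - k) / ((N : ℝ) - k) - (i : ℝ) / N| ≤ k / (N - k) := by
      rw [e4, abs_neg, abs_of_nonneg (by
        apply div_nonneg
        · apply mul_nonneg (by positivity); linarith
        · positivity)]
      rw [div_le_div_iff₀ (by positivity) hkN]
      have h1 : (N : ℝ) - i ≤ N := by
        have : (0 : ℝ) ≤ i := by positivity
        linarith
      have h2 : (0 : ℝ) ≤ k := by positivity
      calc (k : ℝ) * (N - i) * (N - k) ≤ k * N * (N - k) := by
            apply mul_le_mul_of_nonneg_right _ hkN.le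
            exact mul_le_mul_of_nonneg_left h1 h2
        _ = k * (N * (N - k)) := by ring
    rw [e3]
    have e6 : P * (((i : ℝ) - k) / ((N : ℝ) - k)) - ((i : ℝ) / N) ^ (k + 1) =
        P * (((i : ℝ) - k) / ((N : ℝ) - k) - (i : ℝ) / N) + (i : ℝ) / N * (P - ((i : ℝ) / N) ^ k) := by
      ring
    rw [e6]
    refine (abs_add_le _ _).trans ?_
    rw [abs_mul, abs_mul, abs_of_nonneg hP0, abs_of_nonneg hiN0]
    have e7 : P * |((i : ℝ) - k) / ((N : ℝ) - k) - (i : ℝ) / N| ≤ k / (N - k) := by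
      calc P * |((i : ℝ) - k) / ((N : ℝ) - k) - (i : ℝ) / N| ≤ 1 * (k / (N - k)) :=
            mul_le_mul hP1 e5 (abs_nonneg _) zero_le_one
        _ = _ := one_mul _
    have e8 : (i : ℝ) / N * |P - ((i : ℝ) / N) ^ k| ≤ (k : ℝ) ^ 2 / (N - k) := by
      calc (i : ℝ) / N * |P - ((i : ℝ) / N) ^ k| ≤ 1 * ((k : ℝ) ^ 2 / (N - k)) :=
            mul_le_mul hiN1 ih' (abs_nonneg _) zero_le_one
        _ = _ := one_mul _
    refine (add_le_add e7 e8).trans ?_
    rw [← add_div]
    have e9 : (k : ℝ) + k ^ 2 ≤ ((k + 1 : ℕ) : ℝ) ^ 2 := by push_cast; nlinarith [(by positivity : (0:ℝ) ≤ k)]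
    calc ((k : ℝ) + k ^ 2) / (N - k) ≤ ((k + 1 : ℕ) : ℝ) ^ 2 / (N - k) :=
          div_le_div_of_nonneg_right e9 hkN.le
      _ ≤ ((k + 1 : ℕ) : ℝ) ^ 2 / (N - (k + 1 : ℕ)) := by
          apply div_le_div_of_nonneg_left (by positivity) hkN1
          push_cast; linarith

/-- A polynomial with rational coefficients that is positive on `[0, 1]` lies in every subsemiring
that contains the nonnegative constants, `x` and `1 - x`. -/
theorem bernstein_unit (T : Subsemiring ℚ[X]) (hC : ∀ c : ℚ, 0 ≤ c → C c ∈ T) (hX : X ∈ T)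
    (hX1 : 1 - X ∈ T) (f : ℚ[X]) (hf : ∀ t ∈ Set.Icc (0 : ℝ) 1, 0 < aeval t f) : f ∈ T := by
  obtain ⟨t₀, ht₀, hmin⟩ := isCompact_Icc.exists_isMinOn (Set.nonempty_Icc.2 zero_le_one)
    ((f.continuous_aeval (A := ℝ)).continuousOn)
  set δ := aeval t₀ f with hδ
  have hδ0 : 0 < δ := hf t₀ ht₀
  set n := f.natDegree with hn
  set A : ℝ := ∑ k ∈ Finset.range (n + 1), |(f.coeff k : ℝ)| * (k : ℝ) ^ 2 with hA
  have hA0 : 0 ≤ A := Finset.sum_nonneg fun k _ => by positivity
  -- a large degree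
  obtain ⟨N, hN⟩ : ∃ N : ℕ, n < N ∧ A / ((N : ℝ) - n) ≤ δ := by
    obtain ⟨M, hM⟩ := exists_nat_gt (A / δ)
    refine ⟨M + n + 1, by omega, ?_⟩
    have h1 : ((M + n + 1 : ℕ) : ℝ) - n = M + 1 := by push_cast; ring
    rw [h1, div_le_iff₀ (by positivity)]
    rw [div_lt_iff₀ hδ0] at hM
    nlinarith
  obtain ⟨hnN, hN⟩ := hN
  have hNR : (0 : ℝ) < N := by exact_mod_cast (by omega : 0 < N)
  have hnNR : (0 : ℝ) < (N : ℝ) - n := by
    have : (n : ℝ) < N := by exact_mod_cast hnN
    linarith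
  let c : ℕ → ℚ := fun i => ∑ k ∈ Finset.range (n + 1), f.coeff k *
    ((if k ≤ i then (N - k).choose (i - k) else 0 : ℕ) : ℚ)
  have hfeq : f = ∑ i ∈ Finset.range (N + 1), C (c i) * (X ^ i * (1 - X) ^ (N - i)) := by
    conv_lhs => rw [f.as_sum_range_C_mul_X_pow]
    have h1 : ∀ k ∈ Finset.range (n + 1), C (f.coeff k) * X ^ k =
        ∑ i ∈ Finset.range (N + 1), C (f.coeff k *
          ((if k ≤ i then (N - k).choose (i - k) else 0 : ℕ) : ℚ)) *
            (X ^ i * (1 - X) ^ (N - i)) := by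
      intro k hk
      rw [Finset.mem_range] at hk
      rw [pow_eq_bernstein (X : ℚ[X]) N k (by omega), Finset.mul_sum]
      refine Finset.sum_congr rfl fun i _ => ?_
      rw [C_mul, ← mul_assoc]
      congr 2
    rw [Finset.sum_congr rfl h1, Finset.sum_comm]
    refine Finset.sum_congr rfl fun i _ => ?_
    rw [← Finset.sum_mul, ← map_sum]
  have hc : ∀ i ∈ Finset.range (N + 1), 0 ≤ c i := by
    intro i hi
    rw [Finset.mem_range] at hi
    have hi' : i ≤ N := by omega
    have hNi : (0 : ℝ) < (N.choose i : ℝ) := by exact_mod_cast Nat.choose_pos hi'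
    have h1 : ((c i : ℚ) : ℝ) = (N.choose i : ℝ) * ∑ k ∈ Finset.range (n + 1), (f.coeff k : ℝ) *
        ((i.choose k : ℝ) / (N.choose k : ℝ)) := by
      simp only [c]
      push_cast
      rw [Finset.mul_sum]
      refine Finset.sum_congr rfl fun k hk => ?_
      rw [Finset.mem_range] at hk
      have hNk : (0 : ℝ) < (N.choose k : ℝ) := by exact_mod_cast Nat.choose_pos (by omega)
      split_ifs with hki
      · have h2 := Nat.choose_mul (n := N) (k := i) (s := k) hki
        have h3 : ((N.choose i * i.choose k : ℕ) : ℝ) =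
            ((N.choose k * (N - k).choose (i - k) : ℕ) : ℝ) := by rw [h2]
        push_cast at h3
        rw [Rat.cast_natCast]
        field_simp
        linear_combination -(f.coeff k : ℝ) * h3
      · rw [Nat.choose_eq_zero_of_lt (by omega : i < k)]
        simp
    have h2 : (0 : ℝ) ≤ ((c i : ℚ) : ℝ) := by
      rw [h1]
      apply mul_nonneg hNi.le
      have hi1 : (i : ℝ) / N ∈ Set.Icc (0 : ℝ) 1 := by
        refine ⟨by positivity, ?_⟩
        rw [div_le_one hNR]
        exact_mod_cast hi'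
      have h3 : δ ≤ ∑ k ∈ Finset.range (n + 1), (f.coeff k : ℝ) * ((i : ℝ) / N) ^ k := by
        have h4 := hmin hi1
        simp only [Set.mem_ofPred_eq] at h4
        refine h4.trans (le_of_eq ?_)
        rw [aeval_eq_sum_range]
        refine Finset.sum_congr rfl fun k _ => ?_
        rw [Algebra.smul_def]
        simp
      have h4 : ∑ k ∈ Finset.range (n + 1), (f.coeff k : ℝ) * ((i : ℝ) / N) ^ k -
          ∑ k ∈ Finset.range (n + 1), (f.coeff k : ℝ) * ((i.choose k : ℝ) / (N.choose k : ℝ)) ≤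
          A / ((N : ℝ) - n) := by
        rw [← Finset.sum_sub_distrib, hA, Finset.sum_div]
        apply Finset.sum_le_sum
        intro k hk
        rw [Finset.mem_range] at hk
        have h5 := choose_ratio_error N i hi' k (by omega)
        have hkn : (k : ℝ) ≤ n := by exact_mod_cast (by omega : k ≤ n)
        have h6 : (k : ℝ) ^ 2 / (N - k) ≤ (k : ℝ) ^ 2 / (N - n) := by
          apply div_le_div_of_nonneg_left (by positivity) hnNR
          linarith
        calc (f.coeff k : ℝ) * ((i : ℝ) / N) ^ k -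
            (f.coeff k : ℝ) * ((i.choose k : ℝ) / (N.choose k : ℝ)) =
            (f.coeff k : ℝ) * -(((i.choose k : ℝ) / (N.choose k : ℝ)) - ((i : ℝ) / N) ^ k) := by
              ring
          _ ≤ |(f.coeff k : ℝ) * -(((i.choose k : ℝ) / (N.choose k : ℝ)) - ((i : ℝ) / N) ^ k)| :=
              le_abs_self _
          _ = |(f.coeff k : ℝ)| * |((i.choose k : ℝ) / (N.choose k : ℝ)) - ((i : ℝ) / N) ^ k| := by
              rw [abs_mul, abs_neg]
          _ ≤ |(f.coeff k : ℝ)| * ((k : ℝ) ^ 2 / (N - n)) :=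
              mul_le_mul_of_nonneg_left (h5.trans h6) (abs_nonneg _)
          _ = |(f.coeff k : ℝ)| * (k : ℝ) ^ 2 / (N - n) := by ring
      linarith
    exact_mod_cast h2
  rw [hfeq]
  apply T.sum_mem
  intro i hi
  exact T.mul_mem (hC _ (hc i hi)) (T.mul_mem (T.pow_mem hX i) (T.pow_mem hX1 (N - i)))

/-- Bernstein's theorem on an interval with rational endpoints. -/
theorem bernstein_interval (T : Subsemiring ℚ[X]) (hC : ∀ c : ℚ, 0 ≤ c → C c ∈ T) {r r' : ℚ}
    (hr : r < r') (h1 : X - C r ∈ T) (h2 : C r' - X ∈ T) (f : ℚ[X])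
    (hf : ∀ t ∈ Set.Icc (r : ℝ) r', 0 < aeval t f) : f ∈ T := by
  have hd : 0 < r' - r := by linarith
  let φ : ℚ[X] →+* ℚ[X] := Polynomial.compRingHom (C (r' - r)⁻¹ * (X - C r))
  have hφ : ∀ p, φ p = p.comp (C (r' - r)⁻¹ * (X - C r)) := fun p => rfl
  have hg := bernstein_unit (T.comap φ) (by
      intro c hc
      rw [Subsemiring.mem_comap, hφ, C_comp]
      exact hC c hc) (by
      rw [Subsemiring.mem_comap, hφ, X_comp]
      exact T.mul_mem (hC _ (by positivity)) h1) (by
      rw [Subsemiring.mem_comap, hφ, sub_comp, X_comp, one_comp]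
      have : (1 - C (r' - r)⁻¹ * (X - C r) : ℚ[X]) = C (r' - r)⁻¹ * (C r' - X) := by
        have e : (1 : ℚ[X]) = C (r' - r)⁻¹ * (C r' - C r) := by
          rw [← C_sub, ← C_mul, inv_mul_cancel₀ hd.ne', C_1]
        rw [e]
        have e2 : C (r' - r)⁻¹ * (C r' - C r) * (C (r' - r)⁻¹ * (X - C r)) =
          C (r' - r)⁻¹ * (X - C r) := by rw [← e, one_mul]
        ring
      rw [this]
      exact T.mul_mem (hC _ (by positivity)) h2)
    (f.comp (C r + C (r' - r) * X)) (by
      rintro t ⟨ht0, ht1⟩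
      rw [aeval_comp]
      apply hf
      have hdR : (0 : ℝ) < (r' : ℝ) - r := by
        have : ((r' - r : ℚ) : ℝ) = (r' : ℝ) - r := by push_cast; ring
        rw [← this]; exact_mod_cast hd
      simp only [map_add, map_mul, aeval_X, aeval_C, eq_ratCast]
      push_cast
      constructor
      · nlinarith
      · nlinarith)
  rw [Subsemiring.mem_comap, hφ, comp_assoc] at hg
  have : (C r + C (r' - r) * X : ℚ[X]).comp (C (r' - r)⁻¹ * (X - C r)) = X := by
    rw [add_comp, mul_comp, C_comp, C_comp, X_comp, ← mul_assoc, ← C_mul,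
      mul_inv_cancel₀ hd.ne', C_1, one_mul]
    ring
  rwa [this, comp_X] at hg

/-! ### The preordering is a semiring -/

theorem IsSOS.add {p q : ℚ[X]} (hp : IsSOS p) (hq : IsSOS q) : IsSOS (p + q) :=
  AddSubmonoid.add_mem _ hp hq

theorem IsSOS.zero : IsSOS 0 := AddSubmonoid.zero_mem _

theorem isSOS_term {a : ℚ} (ha : 0 ≤ a) (h : ℚ[X]) : IsSOS (C a * h ^ 2) :=
  AddSubmonoid.subset_closure ⟨a, ha, h, rfl⟩

theorem IsSOS.mul_term {p : ℚ[X]} (hp : IsSOS p) {a : ℚ} (ha : 0 ≤ a) (h : ℚ[X]) :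
    IsSOS (p * (C a * h ^ 2)) := by
  unfold IsSOS at hp
  induction hp using AddSubmonoid.closure_induction with
  | mem x hx =>
    obtain ⟨b, hb, k, rfl⟩ := hx
    have : C b * k ^ 2 * (C a * h ^ 2) = C (b * a) * (k * h) ^ 2 := by rw [C_mul]; ring
    rw [this]
    exact isSOS_term (mul_nonneg hb ha) _
  | zero => rw [zero_mul]; exact IsSOS.zero
  | add x y _ _ hx hy => rw [add_mul]; exact hx.add hy

theorem IsSOS.mul {p q : ℚ[X]} (hp : IsSOS p) (hq : IsSOS q) : IsSOS (p * q) := by
  unfold IsSOS at hq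
  induction hq using AddSubmonoid.closure_induction with
  | mem x hx =>
    obtain ⟨b, hb, k, rfl⟩ := hx
    exact hp.mul_term hb k
  | zero => rw [mul_zero]; exact IsSOS.zero
  | add x y _ _ hx hy => rw [mul_add]; exact hx.add hy

theorem IsSOS.sq (p : ℚ[X]) : IsSOS (p ^ 2) := by
  have := isSOS_term (zero_le_one) p
  rwa [C_1, one_mul] at this

theorem IsSOS.const {a : ℚ} (ha : 0 ≤ a) : IsSOS (C a) := by
  have := isSOS_term ha 1
  rwa [one_pow, mul_one] at this

theorem IsSOS.nonneg {p : ℚ[X]} (hp : IsSOS p) (t : ℝ) : 0 ≤ aeval t p := by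
  unfold IsSOS at hp
  induction hp using AddSubmonoid.closure_induction with
  | mem x hx =>
    obtain ⟨b, hb, k, rfl⟩ := hx
    have hb' : (0 : ℝ) ≤ (b : ℝ) := by exact_mod_cast hb
    simp only [map_mul, map_pow, aeval_C, eq_ratCast]
    positivity
  | zero => simp
  | add x y _ _ hx hy => rw [map_add]; linarith

section preordering

variable {s : ℕ} (g : Fin s → ℚ[X])

theorem term_mem {σ : ℚ[X]} (hσ : IsSOS σ) (e : Finset (Fin s)) :
    σ * ∏ i ∈ e, g i ∈ preordering g := by
  classical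
  refine ⟨fun e' => if e' = e then σ else 0, ?_, ?_⟩
  · intro e'
    beta_reduce
    split_ifs
    · exact hσ
    · exact IsSOS.zero
  · simp [ite_mul]

theorem add_mem' {p q : ℚ[X]} (hp : p ∈ preordering g) (hq : q ∈ preordering g) :
    p + q ∈ preordering g := by
  obtain ⟨σ, hσ, rfl⟩ := hp
  obtain ⟨τ, hτ, rfl⟩ := hq
  refine ⟨fun e => σ e + τ e, fun e => (hσ e).add (hτ e), ?_⟩
  rw [← Finset.sum_add_distrib]
  exact Finset.sum_congr rfl fun e _ => by rw [add_mul]

theorem zero_mem' : (0 : ℚ[X]) ∈ preordering g :=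
  ⟨fun _ => 0, fun _ => IsSOS.zero, by simp⟩

theorem sum_mem' {ι : Type*} (A : Finset ι) (p : ι → ℚ[X]) (h : ∀ i ∈ A, p i ∈ preordering g) :
    ∑ i ∈ A, p i ∈ preordering g := by
  classical
  induction A using Finset.induction_on with
  | empty => rw [Finset.sum_empty]; exact zero_mem' g
  | insert a A ha ih =>
    rw [Finset.sum_insert ha]
    exact add_mem' g (h a (Finset.mem_insert_self _ _))
      (ih fun i hi => h i (Finset.mem_insert_of_mem hi))

theorem mul_mem' {p q : ℚ[X]} (hp : p ∈ preordering g) (hq : q ∈ preordering g) :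
    p * q ∈ preordering g := by
  classical
  obtain ⟨σ, hσ, rfl⟩ := hp
  obtain ⟨τ, hτ, rfl⟩ := hq
  rw [Finset.sum_mul_sum]
  apply sum_mem'
  intro e _
  apply sum_mem'
  intro e' _
  have h1 : ∏ i ∈ e, g i = (∏ i ∈ e ∩ e', g i) * ∏ i ∈ e \ e', g i := by
    rw [← Finset.prod_union (by
      rw [Finset.disjoint_left]
      intro x hx hx'
      simp only [Finset.mem_inter, Finset.mem_sdiff] at hx hx'
      exact hx'.2 hx.2)]
    congr 1
    ext x
    simp only [Finset.mem_union, Finset.mem_inter, Finset.mem_sdiff]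
    tauto
  have h2 : ∏ i ∈ e', g i = (∏ i ∈ e ∩ e', g i) * ∏ i ∈ e' \ e, g i := by
    rw [← Finset.prod_union (by
      rw [Finset.disjoint_left]
      intro x hx hx'
      simp only [Finset.mem_inter, Finset.mem_sdiff] at hx hx'
      exact hx'.2 hx.1)]
    congr 1
    ext x
    simp only [Finset.mem_union, Finset.mem_inter, Finset.mem_sdiff]
    tauto
  have h3 : (∏ i ∈ e \ e', g i) * ∏ i ∈ e' \ e, g i = ∏ i ∈ (e \ e') ∪ (e' \ e), g i := by
    rw [Finset.prod_union]
    rw [Finset.disjoint_left]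
    intro x hx hx'
    simp only [Finset.mem_sdiff] at hx hx'
    exact hx'.2 hx.1
  have h4 : σ e * (∏ i ∈ e, g i) * (τ e' * ∏ i ∈ e', g i) =
      (σ e * τ e' * (∏ i ∈ e ∩ e', g i) ^ 2) * ∏ i ∈ (e \ e') ∪ (e' \ e), g i := by
    rw [← h3, h1, h2]; ring
  rw [h4]
  exact term_mem g (((hσ e).mul (hτ e')).mul (IsSOS.sq _)) _

/-- The preordering as a subsemiring of `ℚ[x]`. -/
def PT : Subsemiring ℚ[X] where
  carrier := preordering g
  mul_mem' := mul_mem' g
  one_mem' := by
    have := term_mem g (IsSOS.sq 1) ∅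
    simpa using this
  add_mem' := add_mem' g
  zero_mem' := zero_mem' g

theorem sos_mem {p : ℚ[X]} (hp : IsSOS p) : p ∈ PT g := by
  have := term_mem g hp ∅
  rw [Finset.prod_empty, mul_one] at this
  exact this

theorem gen_mem (i : Fin s) : g i ∈ PT g := by
  have := term_mem g (IsSOS.sq 1) {i}
  rw [Finset.prod_singleton, one_pow, one_mul] at this
  exact this

theorem const_mem {c : ℚ} (hc : 0 ≤ c) : C c ∈ PT g := sos_mem g (IsSOS.const hc)

theorem sq_mem (p : ℚ[X]) : p ^ 2 ∈ PT g := sos_mem g (IsSOS.sq p)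

theorem nonneg_of_mem {p : ℚ[X]} (hp : p ∈ preordering g) {t : ℝ}
    (ht : ∀ i, 0 ≤ aeval t (g i)) : 0 ≤ aeval t p := by
  obtain ⟨σ, hσ, rfl⟩ := hp
  rw [map_sum]
  apply Finset.sum_nonneg
  intro e _
  rw [map_mul, map_prod]
  exact mul_nonneg ((hσ e).nonneg t) (Finset.prod_nonneg fun i _ => ht i)

end preordering

/-! ### The general criterion -/

/-- A polynomial that is nonnegative on `[a, b]` outside the zeros of a nonzero polynomial is
nonnegative on `[a, b]`. -/
theorem nonneg_of_dense {a b : ℝ} (hab : a < b) (f m : ℚ[X]) (hm : m ≠ 0)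
    (h : ∀ t ∈ Set.Ioo a b, aeval t m ≠ 0 → 0 ≤ aeval t f) : ∀ t ∈ Set.Icc a b, 0 ≤ aeval t f := by
  intro t ht
  by_contra hcon
  push Not at hcon
  -- `f` is negative near `t`
  have hcont : Continuous (fun x : ℝ => aeval x f) := f.continuous_aeval (A := ℝ)
  have h1 : ∀ᶠ x in nhds t, aeval x f < 0 := hcont.continuousAt.eventually (gt_mem_nhds hcon)
  have h2 : t ∈ closure (Set.Ioo a b) := by rw [closure_Ioo hab.ne]; exact ht
  obtain ⟨ε, hε, hball⟩ := Metric.eventually_nhds_iff.1 h1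
  obtain ⟨x, hx, hxt⟩ := Metric.mem_closure_iff.1 h2 ε hε
  -- there is a whole interval around `x` in the intersection
  have hopen : IsOpen (Set.Ioo a b ∩ Metric.ball t ε) := isOpen_Ioo.inter Metric.isOpen_ball
  have hxin : x ∈ Set.Ioo a b ∩ Metric.ball t ε := ⟨hx, by rw [Metric.mem_ball, dist_comm]; exact hxt⟩
  have hinf : (Set.Ioo a b ∩ Metric.ball t ε).Infinite := by
    apply infinite_of_mem_nhds x
    exact hopen.mem_nhds hxin
  have hfin : {x : ℝ | aeval x m = 0}.Finite := by
    have hm' : m.map (algebraMap ℚ ℝ) ≠ 0 := by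
      rw [Ne, Polynomial.map_eq_zero]; exact hm
    refine (Finset.finite_toSet (m.map (algebraMap ℚ ℝ)).roots.toFinset).subset ?_
    intro x hx
    rw [Finset.mem_coe, Multiset.mem_toFinset, mem_roots hm', IsRoot.def, eval_map_algebraMap]
    exact hx
  obtain ⟨y, hy, hyn⟩ := (hinf.sdiff hfin).nonempty
  have h3 := h y hy.1 hyn
  have h4 := hball hy.2
  linarith

theorem criterion (T : Subsemiring ℚ[X]) (hsq : ∀ p : ℚ[X], p ^ 2 ∈ T)
    (hC : ∀ c : ℚ, 0 ≤ c → C c ∈ T) {a b : ℝ} (hab : a < b)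
    (hlow : ∀ r : ℚ, (r : ℝ) < a → X - C r ∈ T) (hup : ∀ r : ℚ, b < r → C r - X ∈ T)
    (hA : ∃ m ∈ T, aeval a m = 0 ∧ (∀ t ∈ Set.Ioo a b, 0 < aeval t m) ∧
      ∀ f : ℚ[X], aeval a f = 0 → m ∣ f)
    (hB : ∃ m ∈ T, aeval b m = 0 ∧ (∀ t ∈ Set.Ioo a b, 0 < aeval t m) ∧
      ∀ f : ℚ[X], aeval b f = 0 → m ∣ f) :
    ∀ f ∈ Pos (Set.Icc a b), f ∈ T := by
  have hmid : (a + b) / 2 ∈ Set.Ioo a b := ⟨by linarith, by linarith⟩
  -- strong induction on the degree
  have main : ∀ n : ℕ, ∀ f : ℚ[X], f.natDegree = n → f ∈ Pos (Set.Icc a b) → f ∈ T := by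
    intro n
    induction n using Nat.strong_induction_on with
    | _ n ih =>
      intro f hfn hf
      by_cases hf0 : f = 0
      · rw [hf0]; exact T.zero_mem
      -- dividing by the polynomial of an endpoint
      have hend : ∀ (c : ℝ), aeval c f = 0 → (∃ m ∈ T, aeval c m = 0 ∧
          (∀ t ∈ Set.Ioo a b, 0 < aeval t m) ∧ ∀ f : ℚ[X], aeval c f = 0 → m ∣ f) → f ∈ T := by
        rintro c hc ⟨m, hmT, hm0, hmpos, hmdvd⟩
        obtain ⟨q, rfl⟩ := hmdvd f hc
        have hm : m ≠ 0 := left_ne_zero_of_mul hf0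
        have hq : q ≠ 0 := right_ne_zero_of_mul hf0
        have hmdeg : 0 < m.natDegree := by
          by_contra h0
          have h1 : m.natDegree = 0 := by omega
          rw [natDegree_eq_zero] at h1
          obtain ⟨d, rfl⟩ := h1
          have h2 := hmpos _ hmid
          rw [aeval_C] at h2 hm0
          rw [hm0] at h2
          exact lt_irrefl _ h2
        refine T.mul_mem hmT (ih q.natDegree ?_ q rfl ?_)
        · rw [natDegree_mul hm hq] at hfn
          omega
        · refine nonneg_of_dense hab q 1 one_ne_zero ?_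
          intro t ht _
          have h1 := hf t (Set.Ioo_subset_Icc_self ht)
          rw [map_mul] at h1
          exact nonneg_of_mul_nonneg_right h1 (hmpos t ht)
      by_cases hz : ∃ z ∈ Set.Icc a b, aeval z f = 0
      · obtain ⟨z, hz, hzf⟩ := hz
        by_cases hza : z = a
        · subst hza; exact hend z hzf hA
        by_cases hzb : z = b
        · subst hzb; exact hend z hzf hB
        have hzI : z ∈ Set.Ioo a b :=
          ⟨lt_of_le_of_ne hz.1 (Ne.symm hza), lt_of_le_of_ne hz.2 hzb⟩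
        -- an interior zero
        have hint : IsIntegral ℚ z := by
          rw [← isAlgebraic_iff_isIntegral]
          exact ⟨f, hf0, hzf⟩
        set μ := minpoly ℚ z with hμ
        have hμ0 : μ ≠ 0 := minpoly.ne_zero hint
        have hμdeg : 0 < μ.natDegree := minpoly.natDegree_pos hint
        obtain ⟨q, hq⟩ := minpoly.dvd ℚ z hzf
        have hder : aeval z (derivative μ) ≠ 0 :=
          (minpoly.irreducible hint).separable.aeval_derivative_ne_zero (minpoly.aeval ℚ z)
        have hfd : aeval z (derivative f) = 0 := by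
          have hmin : IsLocalMin (fun x : ℝ => aeval x f) z := by
            filter_upwards [isOpen_Ioo.mem_nhds hzI] with x hx
            rw [hzf]
            exact hf x (Set.Ioo_subset_Icc_self hx)
          exact hmin.hasDerivAt_eq_zero (f.hasDerivAt_aeval z)
        have hqz : aeval z q = 0 := by
          rw [hq, derivative_mul, map_add, map_mul, map_mul, minpoly.aeval, zero_mul,
            add_zero] at hfd
          exact (mul_eq_zero.1 hfd).resolve_left hder
        obtain ⟨q', hq'⟩ := minpoly.dvd ℚ z hqz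
        have hfeq : f = μ ^ 2 * q' := by rw [hq, hq']; ring
        have hq'0 : q' ≠ 0 := by
          rintro rfl; exact hf0 (by rw [hfeq, mul_zero])
        rw [hfeq]
        refine T.mul_mem (hsq μ) (ih q'.natDegree ?_ q' rfl ?_)
        · rw [hfeq, natDegree_mul (pow_ne_zero 2 hμ0) hq'0, natDegree_pow] at hfn
          omega
        · refine nonneg_of_dense hab q' μ hμ0 ?_
          intro t ht htμ
          have h1 := hf t (Set.Ioo_subset_Icc_self ht)
          rw [hfeq, map_mul, map_pow] at h1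
          exact nonneg_of_mul_nonneg_right h1 (by positivity)
      · -- a strictly positive polynomial
        push Not at hz
        have hpos : ∀ t ∈ Set.Icc a b, 0 < aeval t f := fun t ht =>
          lt_of_le_of_ne (hf t ht) (Ne.symm (hz t ht))
        have hcont : Continuous (fun x : ℝ => aeval x f) := f.continuous_aeval (A := ℝ)
        have ha : ∀ᶠ x in nhds a, 0 < aeval x f :=
          hcont.continuousAt.eventually (lt_mem_nhds (hpos a (Set.left_mem_Icc.2 hab.le)))
        have hb : ∀ᶠ x in nhds b, 0 < aeval x f :=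
          hcont.continuousAt.eventually (lt_mem_nhds (hpos b (Set.right_mem_Icc.2 hab.le)))
        obtain ⟨ε, hε, hεa⟩ := Metric.eventually_nhds_iff.1 ha
        obtain ⟨ε', hε', hεb⟩ := Metric.eventually_nhds_iff.1 hb
        obtain ⟨r, hr1, hr2⟩ := exists_rat_btwn (by linarith : a - ε < a)
        obtain ⟨r', hr1', hr2'⟩ := exists_rat_btwn (by linarith : b < b + ε')
        have hrr : r < r' := by
          have : (r : ℝ) < r' := by linarith
          exact_mod_cast this
        refine bernstein_interval T hC hrr (hlow r hr2) (hup r' hr1') f ?_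
        rintro t ⟨ht1, ht2⟩
        rcases lt_or_ge t a with h | h
        · apply hεa
          rw [Real.dist_eq, abs_lt]
          constructor <;> linarith
        · rcases le_or_gt t b with h' | h'
          · exact hpos t ⟨h, h'⟩
          · apply hεb
            rw [Real.dist_eq, abs_lt]
            constructor <;> linarith
  intro f hf
  exact main _ f rfl hf

/-! ### Irreducibility of `x ^ n - p` -/

theorem eisenstein (n p : ℕ) (hn : 0 < n) (hp : p.Prime) :
    Irreducible (X ^ n - C (p : ℚ) : ℚ[X]) := by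
  have hmonic : (X ^ n - C (p : ℤ) : ℤ[X]).Monic := monic_X_pow_sub_C _ hn.ne'
  have hirr : Irreducible (X ^ n - C (p : ℤ) : ℤ[X]) := by
    have hprime : (Ideal.span {(p : ℤ)}).IsPrime := by
      rw [Ideal.span_singleton_prime (by exact_mod_cast hp.ne_zero)]
      exact Nat.prime_iff_prime_int.1 hp
    have hdeg : (X ^ n - C (p : ℤ) : ℤ[X]).natDegree = n := natDegree_X_pow_sub_C
    refine IsEisensteinAt.irreducible (𝓟 := Ideal.span {(p : ℤ)}) ⟨?_, ?_, ?_⟩ hprime
      hmonic.isPrimitive (by rw [hdeg]; exact hn)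
    · rw [hmonic.leadingCoeff, Ideal.mem_span_singleton]
      intro h
      exact (Nat.prime_iff_prime_int.1 hp).not_dvd_one h
    · intro k hk
      rw [hdeg] at hk
      rw [coeff_sub, coeff_X_pow, if_neg (by omega), coeff_C, Ideal.mem_span_singleton]
      split_ifs
      · simp
      · simp
    · rw [coeff_sub, coeff_X_pow, if_neg (by omega), coeff_C_zero, Ideal.span_singleton_pow,
        Ideal.mem_span_singleton, zero_sub, dvd_neg]
      intro h
      have h1 : ((p ^ 2 : ℕ) : ℤ) ∣ ((p : ℕ) : ℤ) := by push_cast; exact h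
      rw [Int.natCast_dvd_natCast] at h1
      have h2 := Nat.le_of_dvd hp.pos h1
      have h3 := hp.two_le
      nlinarith
  have h := (hmonic.irreducible_iff_irreducible_map_fraction_map (K := ℚ)).1 hirr
  have e : (X ^ n - C (p : ℤ) : ℤ[X]).map (algebraMap ℤ ℚ) = X ^ n - C (p : ℚ) := by
    simp
  rwa [e] at h

theorem dvd_of_root (n p : ℕ) (hn : 0 < n) (hp : p.Prime) {c : ℝ} (hc : c ^ n = p) (f : ℚ[X])
    (hf : aeval c f = 0) : (X ^ n - C (p : ℚ) : ℚ[X]) ∣ f := by
  have h := minpoly.eq_of_irreducible_of_monic (eisenstein n p hn hp) (x := c)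
    (by simp [hc]) (monic_X_pow_sub_C _ hn.ne')
  rw [h]
  exact minpoly.dvd ℚ c hf

theorem dvd_of_root' (n p : ℕ) (hn : 0 < n) (hp : p.Prime) {c : ℝ} (hc : c ^ n = p) (f : ℚ[X])
    (hf : aeval c f = 0) : (C (p : ℚ) - X ^ n : ℚ[X]) ∣ f := by
  have h := dvd_of_root n p hn hp hc f hf
  have e : (C (p : ℚ) - X ^ n : ℚ[X]) = -(X ^ n - C (p : ℚ)) := by ring
  rw [e, neg_dvd]
  exact h

theorem T_of_eq (T : Subsemiring ℚ[X]) (hC : ∀ c : ℚ, 0 ≤ c → C c ∈ T) {κ : ℚ} (hκ : 0 < κ)
    {p q : ℚ[X]} (hq : q ∈ T) (h : C κ * p = q) : p ∈ T := by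
  have : p = C κ⁻¹ * q := by
    rw [← h, ← mul_assoc, ← C_mul, inv_mul_cancel₀ hκ.ne', C_1, one_mul]
  rw [this]
  exact T.mul_mem (hC _ (by positivity)) hq

/-! ### The three intervals -/

/-- The generators for `K₁`. -/
noncomputable def g1 : Fin 2 → ℚ[X] := ![X, 2 - X ^ 3]

/-- The generators for `K₂`. -/
noncomputable def g2 : Fin 3 → ℚ[X] := ![X, X ^ 2 - 2, 3 - X ^ 2]

/-- The generators for `K₃`. -/
noncomputable def g3 : Fin 1 → ℚ[X] := ![2 - X ^ 4]

theorem aeval_two_sub (n : ℕ) (t : ℝ) : aeval t (2 - X ^ n : ℚ[X]) = 2 - t ^ n := by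
  rw [map_sub, map_pow, aeval_X]
  congr 1
  exact map_ofNat (aeval t) 2

theorem aeval_three_sub (n : ℕ) (t : ℝ) : aeval t (3 - X ^ n : ℚ[X]) = 3 - t ^ n := by
  rw [map_sub, map_pow, aeval_X]
  congr 1
  exact map_ofNat (aeval t) 3

theorem aeval_sub_two (n : ℕ) (t : ℝ) : aeval t (X ^ n - 2 : ℚ[X]) = t ^ n - 2 := by
  rw [map_sub, map_pow, aeval_X]
  congr 1
  exact map_ofNat (aeval t) 2

theorem K1_eq (c : ℝ) (hc0 : 0 < c) (hc : c ^ 3 = 2) : Pos (Set.Icc 0 c) = preordering g1 := by
  have hX : X ∈ PT g1 := gen_mem g1 0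
  have hY : 2 - X ^ 3 ∈ PT g1 := gen_mem g1 1
  ext f
  constructor
  · intro hf
    refine criterion (PT g1) (sq_mem g1) (fun c hc => const_mem g1 hc) hc0 ?_ ?_ ?_ ?_ f hf
    · intro r hr
      have hr' : r < 0 := by exact_mod_cast hr
      have e : (X - C r : ℚ[X]) = X + C (-r) := by rw [C_neg]; ring
      rw [e]
      exact (PT g1).add_mem hX (const_mem g1 (by linarith))
    · intro r hr
      have hr0 : 0 < r := by
        have : (0 : ℝ) < r := hc0.trans hr
        exact_mod_cast this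
      have hr3 : 2 < r ^ 3 := by
        have : (2 : ℝ) < (r : ℝ) ^ 3 := by rw [← hc]; gcongr
        exact_mod_cast this
      refine T_of_eq (PT g1) (fun c hc => const_mem g1 hc) (κ := 3 * r ^ 2) (by positivity)
        (q := (2 - X ^ 3) + (X + C (2 * r)) * (X - C r) ^ 2 + C (r ^ 3 - 2)) ?_ ?_
      · exact (PT g1).add_mem ((PT g1).add_mem hY ((PT g1).mul_mem
          ((PT g1).add_mem hX (const_mem g1 (by positivity))) (sq_mem g1 _)))
          (const_mem g1 (by linarith))
      · simp only [C_mul, C_sub, C_pow, map_ofNat]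
        ring
    · refine ⟨X, hX, by simp, ?_, ?_⟩
      · intro t ht; rw [aeval_X]; exact ht.1
      · intro f hf
        rw [X_dvd_iff]
        rw [← coeff_zero_eq_aeval_zero'] at hf
        simpa using hf
    · refine ⟨2 - X ^ 3, hY, by rw [aeval_two_sub, hc, sub_self], ?_, ?_⟩
      · intro t ht
        have : t ^ 3 < c ^ 3 := by
          have := ht.1
          have := ht.2
          gcongr
        rw [aeval_two_sub]
        linarith
      · intro f hf
        have := dvd_of_root' 3 2 (by norm_num) Nat.prime_two (c := c) (by simpa using hc) f hf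
        rw [Nat.cast_ofNat, map_ofNat] at this
        exact this
  · intro hf t ht
    refine nonneg_of_mem g1 hf ?_
    intro i
    fin_cases i
    · simpa [g1] using ht.1
    · have : t ^ 3 ≤ c ^ 3 := by
        have := ht.1
        have := ht.2
        gcongr
      show 0 ≤ aeval t (2 - X ^ 3 : ℚ[X])
      rw [aeval_two_sub]
      linarith

/-- The lower bounds of `K₂`: `x - μ` for `1 ≤ μ < √2`. -/
theorem K2_low (μ : ℚ) (h1 : 1 ≤ μ) (h2 : μ ^ 2 < 2) : X - C μ ∈ PT g2 := by
  have hX : X ∈ PT g2 := gen_mem g2 0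
  have hY : X ^ 2 - 2 ∈ PT g2 := gen_mem g2 1
  have hZ : 3 - X ^ 2 ∈ PT g2 := gen_mem g2 2
  refine T_of_eq (PT g2) (fun c hc => const_mem g2 hc) (κ := 10 * μ - 4 * μ ^ 3) (by nlinarith)
    (q := (X ^ 2 - 2) * (3 - X ^ 2) + ((X ^ 2 - 2) + C (2 * μ) * X + C (3 * (μ ^ 2 - 1))) *
      (X - C μ) ^ 2 + C ((2 - μ ^ 2) * (3 - μ ^ 2))) ?_ ?_
  · refine (PT g2).add_mem ((PT g2).add_mem ((PT g2).mul_mem hY hZ) ((PT g2).mul_mem
      ((PT g2).add_mem ((PT g2).add_mem hY ((PT g2).mul_mem (const_mem g2 (by linarith)) hX))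
        (const_mem g2 (by nlinarith))) (sq_mem g2 _)))
      (const_mem g2 (mul_nonneg (by linarith) (by linarith)))
  · simp only [C_mul, C_sub, C_pow, map_ofNat, C_1]
    ring

theorem K2_eq (a b : ℝ) (ha0 : 0 < a) (ha : a ^ 2 = 2) (hb0 : 0 < b) (hb : b ^ 2 = 3) :
    Pos (Set.Icc a b) = preordering g2 := by
  have hX : X ∈ PT g2 := gen_mem g2 0
  have hY : X ^ 2 - 2 ∈ PT g2 := gen_mem g2 1
  have hZ : 3 - X ^ 2 ∈ PT g2 := gen_mem g2 2
  have hab : a < b := by
    have : a ^ 2 < b ^ 2 := by rw [ha, hb]; norm_num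
    exact lt_of_pow_lt_pow_left₀ 2 hb0.le this
  have h1a : 1 < a := by
    have : (1 : ℝ) ^ 2 < a ^ 2 := by rw [ha]; norm_num
    exact lt_of_pow_lt_pow_left₀ 2 ha0.le this
  ext f
  constructor
  · intro hf
    refine criterion (PT g2) (sq_mem g2) (fun c hc => const_mem g2 hc) hab ?_ ?_ ?_ ?_ f hf
    · intro r hr
      obtain ⟨μ, hμ1, hμ2⟩ := exists_rat_btwn (max_lt hr h1a)
      have h3 : (r : ℝ) < μ := (le_max_left _ _).trans_lt hμ1
      have h4 : (1 : ℝ) < μ := (le_max_right _ _).trans_lt hμ1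
      have h3' : r < μ := by exact_mod_cast h3
      have h4' : 1 < μ := by exact_mod_cast h4
      have h5 : μ ^ 2 < 2 := by
        have : (μ : ℝ) ^ 2 < 2 := by rw [← ha]; gcongr
        exact_mod_cast this
      have e : (X - C r : ℚ[X]) = (X - C μ) + C (μ - r) := by rw [C_sub]; ring
      rw [e]
      exact (PT g2).add_mem (K2_low μ h4'.le h5) (const_mem g2 (by linarith))
    · intro r hr
      have hr0 : 0 < r := by
        have : (0 : ℝ) < r := hb0.trans hr
        exact_mod_cast this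
      have hr3 : 3 < r ^ 2 := by
        have : (3 : ℝ) < (r : ℝ) ^ 2 := by rw [← hb]; gcongr
        exact_mod_cast this
      refine T_of_eq (PT g2) (fun c hc => const_mem g2 hc) (κ := 2 * r) (by positivity)
        (q := (3 - X ^ 2) + (X - C r) ^ 2 + C (r ^ 2 - 3)) ?_ ?_
      · exact (PT g2).add_mem ((PT g2).add_mem hZ (sq_mem g2 _)) (const_mem g2 (by linarith))
      · simp only [C_mul, C_sub, C_pow, map_ofNat]
        ring
    · refine ⟨X ^ 2 - 2, hY, by rw [aeval_sub_two, ha, sub_self], ?_, ?_⟩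
      · intro t ht
        have : a ^ 2 < t ^ 2 := by
          have := ht.1
          gcongr
        rw [aeval_sub_two]
        linarith
      · intro f hf
        have := dvd_of_root 2 2 (by norm_num) Nat.prime_two (c := a) (by simpa using ha) f hf
        rw [Nat.cast_ofNat, map_ofNat] at this
        exact this
    · refine ⟨3 - X ^ 2, hZ, by rw [aeval_three_sub, hb, sub_self], ?_, ?_⟩
      · intro t ht
        have : t ^ 2 < b ^ 2 := by
          have := ha0.trans ht.1
          have := ht.2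
          gcongr
        rw [aeval_three_sub]
        linarith
      · intro f hf
        have := dvd_of_root' 2 3 (by norm_num) Nat.prime_three (c := b) (by simpa using hb) f hf
        rw [Nat.cast_ofNat, map_ofNat] at this
        exact this
  · intro hf t ht
    have ht0 : 0 < t := ha0.trans_le ht.1
    refine nonneg_of_mem g2 hf ?_
    intro i
    fin_cases i
    · simpa [g2] using ht0.le
    · have : a ^ 2 ≤ t ^ 2 := by
        have := ht.1
        gcongr
      show 0 ≤ aeval t (X ^ 2 - 2 : ℚ[X])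
      rw [aeval_sub_two]
      linarith
    · have : t ^ 2 ≤ b ^ 2 := by
        have := ht.2
        gcongr
      show 0 ≤ aeval t (3 - X ^ 2 : ℚ[X])
      rw [aeval_three_sub]
      linarith

theorem K3_eq (c : ℝ) (hc0 : 0 < c) (hc : c ^ 4 = 2) : Pos (Set.Icc (-c) c) = preordering g3 := by
  have hY : 2 - X ^ 4 ∈ PT g3 := gen_mem g3 0
  have hc' : (-c) ^ 4 = 2 := by rw [← hc]; ring
  have hpow : ∀ t ∈ Set.Ioo (-c) c, t ^ 4 < 2 := by
    intro t ht
    have h1 : t ^ 2 < c ^ 2 := by
      rw [sq_lt_sq, abs_of_pos hc0, abs_lt]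
      exact ht
    have h2 : (t ^ 2) ^ 2 < (c ^ 2) ^ 2 := by gcongr
    rw [← hc]
    calc t ^ 4 = (t ^ 2) ^ 2 := by ring
      _ < (c ^ 2) ^ 2 := h2
      _ = c ^ 4 := by ring
  have hup : ∀ r : ℚ, c < r → C r - X ∈ PT g3 := by
    intro r hr
    have hr0 : 0 < r := by
      have : (0 : ℝ) < r := hc0.trans hr
      exact_mod_cast this
    have hr3 : 2 < r ^ 4 := by
      have : (2 : ℝ) < (r : ℝ) ^ 4 := by rw [← hc]; gcongr
      exact_mod_cast this
    refine T_of_eq (PT g3) (fun c hc => const_mem g3 hc) (κ := 4 * r ^ 3) (by positivity)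
      (q := (2 - X ^ 4) + (X - C r) ^ 2 * ((X + C r) ^ 2 + C (2 * r ^ 2)) + C (r ^ 4 - 2)) ?_ ?_
    · exact (PT g3).add_mem ((PT g3).add_mem hY ((PT g3).mul_mem (sq_mem g3 _)
        ((PT g3).add_mem (sq_mem g3 _) (const_mem g3 (by positivity)))))
        (const_mem g3 (by linarith))
    · simp only [C_mul, C_sub, C_pow, map_ofNat]
      ring
  have hlow : ∀ r : ℚ, (r : ℝ) < -c → X - C r ∈ PT g3 := by
    intro r hr
    have hr0 : 0 < -r := by
      have : (0 : ℝ) < -r := by linarith
      exact_mod_cast this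
    have hr3 : 2 < (-r) ^ 4 := by
      have h0 : c < -(r : ℝ) := by linarith
      have : (2 : ℝ) < (-(r : ℝ)) ^ 4 := by rw [← hc]; gcongr
      exact_mod_cast this
    refine T_of_eq (PT g3) (fun c hc => const_mem g3 hc) (κ := 4 * (-r) ^ 3) (by positivity)
      (q := (2 - X ^ 4) + (X - C r) ^ 2 * ((X + C r) ^ 2 + C (2 * r ^ 2)) + C ((-r) ^ 4 - 2)) ?_ ?_
    · exact (PT g3).add_mem ((PT g3).add_mem hY ((PT g3).mul_mem (sq_mem g3 _)
        ((PT g3).add_mem (sq_mem g3 _) (const_mem g3 (by positivity)))))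
        (const_mem g3 (by linarith))
    · simp only [C_mul, C_sub, C_pow, C_neg, map_ofNat]
      ring
  ext f
  constructor
  · intro hf
    refine criterion (PT g3) (sq_mem g3) (fun c hc => const_mem g3 hc) (by linarith) hlow hup
      ?_ ?_ f hf
    · refine ⟨2 - X ^ 4, hY, by rw [aeval_two_sub, hc', sub_self], ?_, ?_⟩
      · intro t ht
        rw [aeval_two_sub]
        linarith [hpow t ht]
      · intro f hf
        have := dvd_of_root' 4 2 (by norm_num) Nat.prime_two (c := -c) (by simpa using hc') f hf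
        rw [Nat.cast_ofNat, map_ofNat] at this
        exact this
    · refine ⟨2 - X ^ 4, hY, by rw [aeval_two_sub, hc, sub_self], ?_, ?_⟩
      · intro t ht
        rw [aeval_two_sub]
        linarith [hpow t ht]
      · intro f hf
        have := dvd_of_root' 4 2 (by norm_num) Nat.prime_two (c := c) (by simpa using hc) f hf
        rw [Nat.cast_ofNat, map_ofNat] at this
        exact this
  · intro hf t ht
    refine nonneg_of_mem g3 hf ?_
    intro i
    fin_cases i
    show 0 ≤ aeval t (2 - X ^ 4 : ℚ[X])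
    rw [aeval_two_sub]
    rcases eq_or_lt_of_le ht.1 with h | h
    · rw [← h, hc', sub_self]
    rcases eq_or_lt_of_le ht.2 with h' | h'
    · rw [h', hc, sub_self]
    linarith [hpow t ⟨h, h'⟩]

/-- For each of `K₁ = [0, 2^(1/3)]`, `K₂ = [√2, √3]`, `K₃ = [-2^(1/4), 2^(1/4)]` the preordering
`Pos(Kᵢ)` of `ℚ[x]` is generated by the natural generators; in particular `x - 1` lies in the
preordering generated by `x, x² - 2, 3 - x²`. -/
theorem result :
    Pos (Set.Icc 0 ((2 : ℝ) ^ (1 / 3 : ℝ))) = preordering (![X, 2 - X ^ 3] : Fin 2 → ℚ[X]) ∧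
    Pos (Set.Icc (√2) (√3)) = preordering (![X, X ^ 2 - 2, 3 - X ^ 2] : Fin 3 → ℚ[X]) ∧
    Pos (Set.Icc (-(2 : ℝ) ^ (1 / 4 : ℝ)) ((2 : ℝ) ^ (1 / 4 : ℝ))) =
      preordering (![2 - X ^ 4] : Fin 1 → ℚ[X]) ∧
    (X - 1 : ℚ[X]) ∈ preordering (![X, X ^ 2 - 2, 3 - X ^ 2] : Fin 3 → ℚ[X]) := by
  refine ⟨K1_eq _ (by positivity) ?_, K2_eq _ _ (by positivity) (Real.sq_sqrt (by norm_num))
    (by positivity) (Real.sq_sqrt (by norm_num)), K3_eq _ (by positivity) ?_, ?_⟩
  · rw [← Real.rpow_natCast, ← Real.rpow_mul (by norm_num)]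
    norm_num
  · rw [← Real.rpow_natCast, ← Real.rpow_mul (by norm_num)]
    norm_num
  · have := K2_low 1 le_rfl (by norm_num)
    rw [C_1] at this
    exact this

end Pool.Agent.Results.MP_57f692_ag.AllFinGen
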